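import Mathlib
import Pool.Agent.H759R2.Kad.Props3

open scoped ComplexOrder InnerProductSpace ComplexConjugate
open Finset

noncomputable section

namespace H759R2.Kad

universe u v

namespace A04

/-- Swap of the coordinates outside `S`. -/
def sw (n : ℕ) (k : Fin n → ℕ) (S : Finset (Fin n))
    (p : (∀ c : Fin n, Fin (k c + 1)) × (∀ c : Fin n, Fin (k c + 1))) :
    (∀ c : Fin n, Fin (k c + 1)) × (∀ c : Fin n, Fin (k c + 1)) :=
  (fun c => if c ∈ S then p.1 c else p.2 c, fun c => if c ∈ S then p.2 c else p.1 c)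

theorem sw_sw (n : ℕ) (k : Fin n → ℕ) (S : Finset (Fin n)) :
    Function.Involutive (sw n k S) := by
  intro p
  refine Prod.ext ?_ ?_
  · funext c
    by_cases h : c ∈ S <;> simp [sw, h]
  · funext c
    by_cases h : c ∈ S <;> simp [sw, h]

end A04

theorem prove3_indep : K_indep.{u} := by
  intro n k V _ _ S f h hf hh
  have key : ∑ p : (∀ c : Fin n, Fin (k c + 1)) × (∀ c : Fin n, Fin (k c + 1)),
      f p.1 • h p.2 =
      ∑ p : (∀ c : Fin n, Fin (k c + 1)) × (∀ c : Fin n, Fin (k c + 1)),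
      f p.1 • h p.1 := by
    rw [← Equiv.sum_comp (A04.sw_sw n k S).toPerm (fun p => f p.1 • h p.2)]
    refine Finset.sum_congr rfl fun p _ => ?_
    have e1 : f (A04.sw n k S p).1 = f p.1 := by
      apply hf
      intro c hc
      simp [A04.sw, hc]
    have e2 : h (A04.sw n k S p).2 = h p.1 := by
      apply hh
      intro c hc
      simp [A04.sw, hc]
    change f (A04.sw n k S p).1 • h (A04.sw n k S p).2 = _
    rw [e1, e2]
  rw [Fintype.sum_prod_type, Fintype.sum_prod_type] at key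
  have k1 : ∑ x : (∀ c : Fin n, Fin (k c + 1)), ∑ y : (∀ c : Fin n, Fin (k c + 1)),
      f x • h y = (∑ x, f x) • (∑ y, h y) := by
    rw [Finset.sum_smul]
    refine Finset.sum_congr rfl fun x _ => ?_
    rw [Finset.smul_sum]
  have k2 : ∑ x : (∀ c : Fin n, Fin (k c + 1)), ∑ _y : (∀ c : Fin n, Fin (k c + 1)),
      f x • h x = (Fintype.card (∀ c : Fin n, Fin (k c + 1)) : ℂ) • (∑ x, f x • h x) := by
    rw [Finset.sum_comm]
    rw [Finset.sum_const, Finset.card_univ, ← Nat.cast_smul_eq_nsmul ℂ]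
  rw [k1, k2] at key
  have hc : (Fintype.card (∀ c : Fin n, Fin (k c + 1)) : ℂ) ≠ 0 := by
    exact_mod_cast Fintype.card_ne_zero
  unfold fav
  rw [smul_eq_mul, smul_smul, mul_assoc, mul_comm (∑ s, f s), ← mul_assoc, ← smul_smul, key,
    smul_smul, mul_assoc, inv_mul_cancel₀ hc, mul_one]

end H759R2.Kad
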